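import Mathlib

set_option autoImplicit false

open Filter Topology

namespace Pool.Agent.MP_2f2b65

/-- `Q` carries an equivalent WUR norm. -/
def WURable (Q : Type) [SeminormedAddCommGroup Q] [NormedSpace ℝ Q] : Prop :=
  ∃ N : Q → ℝ, (∀ a b, N (a + b) ≤ N a + N b) ∧ (∀ (r : ℝ) a, N (r • a) = |r| * N a) ∧
      (∃ c C : ℝ, 0 < c ∧ 0 < C ∧ ∀ a, c * ‖a‖ ≤ N a ∧ N a ≤ C * ‖a‖) ∧
      ∀ u v : ℕ → Q, (∀ n, N (u n) ≤ 1) → (∀ n, N (v n) ≤ 1) →
        Tendsto (fun n => N (u n + v n)) atTop (𝓝 2) →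
        ∀ f : Q →L[ℝ] ℝ, Tendsto (fun n => f (u n - v n)) atTop (𝓝 0)

theorem wurable_of_parallelogram (Q : Type) [SeminormedAddCommGroup Q] [NormedSpace ℝ Q]
    (h : ∀ a b : Q, ‖a - b‖ ^ 2 ≤ 2 * ‖a‖ ^ 2 + 2 * ‖b‖ ^ 2 - ‖a + b‖ ^ 2) : WURable Q := by
  refine ⟨fun q => ‖q‖, norm_add_le, fun r a => by dsimp only; rw [norm_smul, Real.norm_eq_abs],
    ⟨1, 1, one_pos, one_pos, fun a => by simp⟩, ?_⟩
  intro u v hu hv huv f
  have h1 : Tendsto (fun n => 4 - ‖u n + v n‖ ^ 2) atTop (𝓝 0) := by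
    have := (tendsto_const_nhds (x := (4 : ℝ))).sub (huv.pow 2)
    convert! this using 2
    norm_num
  have h2 : Tendsto (fun n => ‖u n - v n‖ ^ 2) atTop (𝓝 0) := by
    refine squeeze_zero (fun n => by positivity) (fun n => ?_) h1
    have h3 := h (u n) (v n)
    have h4 : ‖u n‖ ^ 2 ≤ 1 := pow_le_one₀ (norm_nonneg _) (hu n)
    have h5 : ‖v n‖ ^ 2 ≤ 1 := pow_le_one₀ (norm_nonneg _) (hv n)
    linarith
  have h3 : Tendsto (fun n => ‖u n - v n‖) atTop (𝓝 0) := by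
    have := h2.sqrt
    simpa [Real.sqrt_sq (norm_nonneg _)] using this
  have h4 : Tendsto (fun n => ‖f‖ * ‖u n - v n‖) atTop (𝓝 0) := by
    simpa using h3.const_mul ‖f‖
  exact squeeze_zero_norm (fun n => f.le_opNorm _) h4

theorem wurable_of_hilbert_control (Q : Type) [SeminormedAddCommGroup Q] [NormedSpace ℝ Q]
    (K : Type) [NormedAddCommGroup K] [InnerProductSpace ℝ K] (R : Q →ₗ[ℝ] K) (C : ℝ)
    (hR : ∀ q, ‖R q‖ ≤ C * ‖q‖)
    (h : ∀ (g : Q →L[ℝ] ℝ) (ε : ℝ), 0 < ε → ∃ M : ℝ, ∀ q, |g q| ≤ M * ‖R q‖ + ε * ‖q‖) :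
    WURable Q := by
  set N : Q → ℝ := fun q => ‖(WithLp.toLp 2 (q, R q) : WithLp 2 (Q × K))‖ with hN
  have hNsq : ∀ q, (N q) ^ 2 = ‖q‖ ^ 2 + ‖R q‖ ^ 2 := by
    intro q
    simp only [hN]
    rw [WithLp.prod_norm_sq_eq_of_L2]
    rfl
  have hN0 : ∀ q, 0 ≤ N q := fun q => norm_nonneg _
  have hle : ∀ q, ‖q‖ ≤ N q := by
    intro q
    refine le_of_sq_le_sq ?_ (hN0 q)
    rw [hNsq]
    nlinarith [sq_nonneg ‖R q‖]
  refine ⟨N, ?_, ?_, ⟨1, 1 + |C|, one_pos, by positivity, ?_⟩, ?_⟩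
  · intro a b
    have : (WithLp.toLp 2 (a + b, R (a + b)) : WithLp 2 (Q × K)) =
        WithLp.toLp 2 (a, R a) + WithLp.toLp 2 (b, R b) := by
      rw [map_add]; rfl
    simp only [hN]
    rw [this]
    exact norm_add_le _ _
  · intro r a
    have : (WithLp.toLp 2 (r • a, R (r • a)) : WithLp 2 (Q × K)) =
        r • WithLp.toLp 2 (a, R a) := by
      rw [map_smul]; rfl
    simp only [hN]
    rw [this, norm_smul, Real.norm_eq_abs]
  · intro a
    refine ⟨by rw [one_mul]; exact hle a, ?_⟩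
    refine le_of_sq_le_sq ?_ (by positivity)
    rw [hNsq]
    have h1 : ‖R a‖ ≤ |C| * ‖a‖ :=
      (hR a).trans (mul_le_mul_of_nonneg_right (le_abs_self C) (norm_nonneg _))
    have h2 : ‖R a‖ ^ 2 ≤ (|C| * ‖a‖) ^ 2 := pow_le_pow_left₀ (norm_nonneg _) h1 2
    nlinarith [sq_nonneg ‖a‖, abs_nonneg C, mul_nonneg (abs_nonneg C) (sq_nonneg ‖a‖)]
  · intro u v hu hv huv g
    have h1 : Tendsto (fun n => 4 - (N (u n + v n)) ^ 2) atTop (𝓝 0) := by
      have := (tendsto_const_nhds (x := (4 : ℝ))).sub (huv.pow 2)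
      convert! this using 2
      norm_num
    have h2 : Tendsto (fun n => ‖R (u n - v n)‖ ^ 2) atTop (𝓝 0) := by
      refine squeeze_zero (fun n => by positivity) (fun n => ?_) h1
      have h4 : (N (u n)) ^ 2 ≤ 1 := pow_le_one₀ (hN0 _) (hu n)
      have h5 : (N (v n)) ^ 2 ≤ 1 := pow_le_one₀ (hN0 _) (hv n)
      rw [hNsq] at h4 h5 ⊢
      have h6 := parallelogram_law_with_norm ℝ (R (u n)) (R (v n))
      rw [← map_add, ← map_sub] at h6
      have h7 : ‖u n + v n‖ ≤ ‖u n‖ + ‖v n‖ := norm_add_le _ _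
      have h8 : ‖u n + v n‖ ^ 2 ≤ (‖u n‖ + ‖v n‖) ^ 2 := pow_le_pow_left₀ (norm_nonneg _) h7 2
      nlinarith [sq_nonneg (‖u n‖ - ‖v n‖)]
    have h3 : Tendsto (fun n => ‖R (u n - v n)‖) atTop (𝓝 0) := by
      have := h2.sqrt
      simpa [Real.sqrt_sq (norm_nonneg _)] using this
    rw [Metric.tendsto_atTop]
    intro ε hε
    obtain ⟨M, hM⟩ := h g (ε / 4) (by positivity)
    have h4 : Tendsto (fun n => M * ‖R (u n - v n)‖) atTop (𝓝 0) := by
      simpa using h3.const_mul M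
    rw [Metric.tendsto_atTop] at h4
    obtain ⟨n0, hn0⟩ := h4 (ε / 2) (by positivity)
    refine ⟨n0, fun n hn => ?_⟩
    have h5 := hn0 n hn
    rw [Real.dist_eq, sub_zero] at h5 ⊢
    have h6 := hM (u n - v n)
    have h7 : ‖u n - v n‖ ≤ 2 := by
      refine (norm_sub_le _ _).trans ?_
      have := (hle (u n)).trans (hu n)
      have := (hle (v n)).trans (hv n)
      linarith
    have h8 := le_abs_self (M * ‖R (u n - v n)‖)
    nlinarith

end Pool.Agent.MP_2f2b65
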