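import Mathlib

set_option autoImplicit false

open Finset

namespace Pool.Agent.MP_2f2b65

/-- `M` is a (sub-additive) mass on the tree of finite sequences; a node `s` has the children
`i :: s`. -/
def IsMass (M : List ℕ → ℝ) : Prop :=
  (∀ s, 0 ≤ M s) ∧ ∀ (s : List ℕ) (I : Finset ℕ), ∑ i ∈ I, M (i :: s) ≤ M s

/-- `ι` chooses at every node a child such that all the other children have at most half
the mass. -/
def Main (M : List ℕ → ℝ) (ι : List ℕ → ℕ) : Prop :=
  ∀ s i, i ≠ ι s → 2 * M (i :: s) ≤ M s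

theorem exists_main {M : List ℕ → ℝ} (hM : IsMass M) : ∃ ι, Main M ι := by
  classical
  have h : ∀ s : List ℕ, ∃ j : ℕ, ∀ i, i ≠ j → 2 * M (i :: s) ≤ M s := by
    intro s
    by_cases h : ∃ j, M s < 2 * M (j :: s)
    · obtain ⟨j, hj⟩ := h
      refine ⟨j, fun i hi => ?_⟩
      have h2 := hM.2 s {i, j}
      rw [Finset.sum_pair hi] at h2
      linarith
    · push Not at h
      exact ⟨0, fun i _ => h i⟩
  choose ι hι using h
  exact ⟨ι, hι⟩

/-- The potential `√B · W^{3/4}`. -/
noncomputable def phi (B W : ℝ) : ℝ := √(B * √W) * √W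

theorem phi_nonneg (B W : ℝ) : 0 ≤ phi B W := mul_nonneg (Real.sqrt_nonneg _) (Real.sqrt_nonneg _)

/-- The contraction factor. -/
noncomputable def theta : ℝ := √((1 + √(1 / 2)) / 2)

theorem theta_nonneg : 0 ≤ theta := Real.sqrt_nonneg _

theorem theta_lt_one : theta < 1 := by
  unfold theta
  have h : √(1 / 2 : ℝ) < 1 := by
    rw [Real.sqrt_lt' one_pos]
    norm_num
  rw [Real.sqrt_lt' one_pos]
  linarith

theorem node_aux (I : Finset ℕ) (B W : ℕ → ℝ) (c b w : ℝ) (hB : ∀ i, 0 ≤ B i) (hW : ∀ i, 0 ≤ W i)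
    (hsW : ∑ i ∈ I, W i ≤ w) (hc : 0 ≤ c)
    (h : ∑ i ∈ I, B i * √(W i) ≤ c * (b * √w)) :
    ∑ i ∈ I, phi (B i) (W i) ≤ √c * phi b w := by
  have h1 : ∑ i ∈ I, phi (B i) (W i) ≤ √(∑ i ∈ I, B i * √(W i)) * √(∑ i ∈ I, W i) := by
    unfold phi
    exact Real.sum_sqrt_mul_sqrt_le I (fun i => mul_nonneg (hB i) (Real.sqrt_nonneg _)) hW
  refine h1.trans ?_
  unfold phi
  rw [← mul_assoc, ← Real.sqrt_mul hc]
  exact mul_le_mul (Real.sqrt_le_sqrt h) (Real.sqrt_le_sqrt hsW) (Real.sqrt_nonneg _)
    (Real.sqrt_nonneg _)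

theorem node1 (I : Finset ℕ) (B W : ℕ → ℝ) (b w : ℝ) (hB : ∀ i, 0 ≤ B i) (hW : ∀ i, 0 ≤ W i)
    (hsB : ∑ i ∈ I, B i ≤ b) (hsW : ∑ i ∈ I, W i ≤ w) :
    ∑ i ∈ I, phi (B i) (W i) ≤ phi b w := by
  have h := node_aux I B W 1 b w hB hW hsW zero_le_one ?_
  · simpa using h
  · have : ∀ i ∈ I, B i * √(W i) ≤ B i * √w := by
      intro i hi
      have hi' : W i ≤ w := (Finset.single_le_sum (fun k _ => hW k) hi).trans hsW
      exact mul_le_mul_of_nonneg_left (Real.sqrt_le_sqrt hi') (hB i)
    refine (Finset.sum_le_sum this).trans ?_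
    rw [← Finset.sum_mul, one_mul]
    exact mul_le_mul_of_nonneg_right hsB (Real.sqrt_nonneg _)

theorem node2 (I : Finset ℕ) (B W : ℕ → ℝ) (b w : ℝ) (j : ℕ) (hB : ∀ i, 0 ≤ B i)
    (hW : ∀ i, 0 ≤ W i) (hsB : ∑ i ∈ I, B i ≤ b) (hsW : ∑ i ∈ I, W i ≤ w)
    (hj : 2 * B j ≤ b) (hi : ∀ i, i ≠ j → 2 * W i ≤ w) :
    ∑ i ∈ I, phi (B i) (W i) ≤ theta * phi b w := by
  have hb : 0 ≤ b := le_trans (Finset.sum_nonneg fun i _ => hB i) hsB
  have hw : 0 ≤ w := le_trans (Finset.sum_nonneg fun i _ => hW i) hsW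
  have hs : √(1 / 2 : ℝ) ≤ 1 := by
    exact Real.sqrt_le_one.2 (by norm_num)
  have hs0 : 0 ≤ √(1 / 2 : ℝ) := Real.sqrt_nonneg _
  unfold theta
  refine node_aux I B W _ b w hB hW hsW (by positivity) ?_
  -- pointwise
  have h1 : ∀ i ∈ I, B i * √(W i) ≤
      √(1/2) * √w * B i + (if i = j then (1 - √(1/2)) * √w * B i else 0) := by
    intro i hiI
    have hwi : W i ≤ w := (Finset.single_le_sum (fun k _ => hW k) hiI).trans hsW
    split_ifs with hij
    · have := mul_le_mul_of_nonneg_left (Real.sqrt_le_sqrt hwi) (hB i)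
      nlinarith
    · have h2 : W i ≤ 1 / 2 * w := by linarith [hi i hij]
      have h3 : √(W i) ≤ √(1/2) * √w := by
        rw [← Real.sqrt_mul (by norm_num)]
        exact Real.sqrt_le_sqrt h2
      have := mul_le_mul_of_nonneg_left h3 (hB i)
      linarith
  refine (Finset.sum_le_sum h1).trans ?_
  rw [Finset.sum_add_distrib, ← Finset.mul_sum]
  have h4 : ∑ i ∈ I, (if i = j then (1 - √(1/2)) * √w * B i else 0) ≤ (1 - √(1/2)) * √w * (b / 2) := by
    rw [Finset.sum_ite_eq']
    have h5 : 0 ≤ (1 - √(1/2 : ℝ)) * √w := mul_nonneg (by linarith) (Real.sqrt_nonneg _)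
    split_ifs
    · exact mul_le_mul_of_nonneg_left (by linarith) h5
    · positivity
  have h6 : √(1/2) * √w * ∑ i ∈ I, B i ≤ √(1/2) * √w * b :=
    mul_le_mul_of_nonneg_left hsB (by positivity)
  calc _ ≤ √(1/2) * √w * b + (1 - √(1/2)) * √w * (b / 2) := add_le_add h6 h4
    _ = (1 + √(1/2)) / 2 * (b * √w) := by ring

/-! ### Suffix combinatorics -/

theorem suffix_iff_eq_or_cons (s t : List ℕ) : s <:+ t ↔ t = s ∨ ∃ i, (i :: s) <:+ t := by
  constructor
  · rintro ⟨r, rfl⟩
    rcases List.eq_nil_or_concat r with h | ⟨r', i, h⟩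
    · left; simp [h]
    · right
      refine ⟨i, r', ?_⟩
      simp [h]
  · rintro (rfl | ⟨i, r, rfl⟩)
    · exact List.suffix_rfl
    · exact ⟨r ++ [i], by simp⟩

theorem cons_suffix_unique {s t : List ℕ} {i i' : ℕ} (h : (i :: s) <:+ t) (h' : (i' :: s) <:+ t) :
    i = i' := by
  obtain ⟨r, hr⟩ := h
  obtain ⟨r', hr'⟩ := h'
  have h1 : r ++ (i :: s) = r' ++ (i' :: s) := hr.trans hr'.symm
  have h2 := List.append_inj' h1 (by simp)
  simpa using h2.2

/-- sum over the part of `F` below `s` -/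
noncomputable def below (F : Finset (List ℕ)) (g : List ℕ → ℝ) (s : List ℕ) : ℝ := by
  classical exact ∑ t ∈ F, if s <:+ t then g t else 0

theorem below_nonneg (F : Finset (List ℕ)) {g : List ℕ → ℝ} (hg : ∀ t, 0 ≤ g t) (s : List ℕ) :
    0 ≤ below F g s := by
  classical
  unfold below
  refine Finset.sum_nonneg fun t _ => ?_
  split_ifs
  · exact hg t
  · exact le_rfl

theorem below_isMass (F : Finset (List ℕ)) {g : List ℕ → ℝ} (hg : ∀ t, 0 ≤ g t) :
    IsMass (below F g) := by
  classical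
  refine ⟨below_nonneg F hg, fun s I => ?_⟩
  unfold below
  rw [Finset.sum_comm]
  refine Finset.sum_le_sum fun t _ => ?_
  by_cases h : ∃ i, (i :: s) <:+ t
  · obtain ⟨i, hi⟩ := h
    have hs : s <:+ t := (suffix_iff_eq_or_cons s t).2 (Or.inr ⟨i, hi⟩)
    rw [if_pos hs]
    have : ∀ k ∈ I, (if (k :: s) <:+ t then g t else 0) = if k = i then g t else 0 := by
      intro k _
      by_cases hk : k = i
      · subst hk; rw [if_pos hi, if_pos rfl]
      · rw [if_neg hk, if_neg (fun h => hk (cons_suffix_unique h hi))]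
    rw [Finset.sum_congr rfl this, Finset.sum_ite_eq']
    split_ifs
    · exact le_rfl
    · exact hg t
  · push Not at h
    rw [Finset.sum_eq_zero (fun k _ => if_neg (h k))]
    split_ifs
    · exact hg t
    · exact le_rfl

theorem le_below (F : Finset (List ℕ)) {g : List ℕ → ℝ} (hg : ∀ t, 0 ≤ g t) {s : List ℕ}
    (hs : s ∈ F) : g s ≤ below F g s := by
  classical
  unfold below
  have := Finset.single_le_sum (f := fun t => if s <:+ t then g t else 0)
    (fun t _ => by split_ifs; exact hg t; exact le_rfl) hs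
  simpa using this

theorem below_split (F : Finset (List ℕ)) {g : List ℕ → ℝ} (hg : ∀ t, 0 ≤ g t) :
    ∃ I : Finset ℕ, ∀ s, below F g s ≤ (if s ∈ F then g s else 0) + ∑ i ∈ I, below F g (i :: s) := by
  classical
  refine ⟨F.biUnion fun t => t.toFinset, fun s => ?_⟩
  unfold below
  rw [Finset.sum_comm]
  have h0 : (if s ∈ F then g s else 0) = ∑ t ∈ F, if t = s then g t else 0 := by
    rw [Finset.sum_ite_eq']
  rw [h0, ← Finset.sum_add_distrib]
  refine Finset.sum_le_sum fun t ht => ?_
  have hnn : 0 ≤ ∑ i ∈ F.biUnion fun t => t.toFinset, if (i :: s) <:+ t then g t else 0 := by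
    refine Finset.sum_nonneg fun t _ => ?_
    split_ifs
    · exact hg _
    · exact le_rfl
  have hnn' : 0 ≤ (if t = s then g t else 0) := by
    split_ifs
    · exact hg _
    · exact le_rfl
  by_cases hst : s <:+ t
  · rw [if_pos hst]
    rcases (suffix_iff_eq_or_cons s t).1 hst with rfl | ⟨i, hi⟩
    · rw [if_pos rfl]; linarith
    · have hmem : i ∈ F.biUnion fun t => t.toFinset := by
        rw [Finset.mem_biUnion]
        refine ⟨t, ht, ?_⟩
        rw [List.mem_toFinset]
        exact hi.subset (by simp)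
      have := Finset.single_le_sum (f := fun i => if (i :: s) <:+ t then g t else 0)
        (fun k _ => by split_ifs; exact hg t; exact le_rfl) hmem
      simp only [hi, if_true] at this
      linarith
  · rw [if_neg hst]; linarith

theorem below_eq_zero (F : Finset (List ℕ)) {g : List ℕ → ℝ} {s : List ℕ}
    (h : ∀ t ∈ F, t.length < s.length) : below F g s = 0 := by
  classical
  unfold below
  refine Finset.sum_eq_zero fun t ht => ?_
  rw [if_neg]
  intro hs
  have := hs.length_le
  have := h t ht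
  omega

/-- The tree estimate. -/
theorem tree_bound (F : Finset (List ℕ)) (a u : List ℕ → ℝ) (ha : ∀ t, 0 ≤ a t) (hu : ∀ t, 0 ≤ u t)
    (B : List ℕ → ℝ) (hB : IsMass B) (ι j : List ℕ → ℕ) (hι : Main B ι)
    (hj : Main (below F u) j)
    (hau : ∀ t ∈ F, √(B t) * a t ≤ phi (B t) (below F u t)) :
    ∑ t ∈ F, (if ι t ≠ j t then √(B t) * a t else 0) ≤
      (1 - theta)⁻¹ * phi (B []) (below F u []) := by
  classical
  set g : List ℕ → ℝ := fun t => if ι t ≠ j t then √(B t) * a t else 0 with hgdef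
  have hg : ∀ t, 0 ≤ g t := by
    intro t
    simp only [hgdef]
    split_ifs
    · exact mul_nonneg (Real.sqrt_nonneg _) (ha t)
    · exact le_rfl
  obtain ⟨I, hI⟩ := below_split F hg
  have hWm := below_isMass F hu
  have hθ : 0 < 1 - theta := by linarith [theta_lt_one]
  have key : ∀ (n : ℕ) (s : List ℕ), (∀ t ∈ F, t.length < s.length + n) →
      below F g s ≤ (1 - theta)⁻¹ * phi (B s) (below F u s) := by
    intro n
    induction n with
    | zero =>
      intro s hs
      rw [below_eq_zero F (by simpa using hs)]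
      exact mul_nonneg (inv_nonneg.2 hθ.le) (phi_nonneg _ _)
    | succ n ih =>
      intro s hs
      refine (hI s).trans ?_
      have h1 : ∑ i ∈ I, below F g (i :: s) ≤
          (1 - theta)⁻¹ * ∑ i ∈ I, phi (B (i :: s)) (below F u (i :: s)) := by
        rw [Finset.mul_sum]
        refine Finset.sum_le_sum fun i _ => ih (i :: s) fun t ht => ?_
        have := hs t ht
        simp only [List.length_cons]
        omega
      by_cases hS : s ∈ F ∧ ι s ≠ j s
      · rw [if_pos hS.1]
        have h2 : g s ≤ phi (B s) (below F u s) := by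
          simp only [hgdef]
          rw [if_pos hS.2]
          exact hau s hS.1
        have h3 := node2 I (fun i => B (i :: s)) (fun i => below F u (i :: s)) (B s)
          (below F u s) (j s) (fun i => hB.1 _) (fun i => hWm.1 _) (hB.2 s I) (hWm.2 s I)
          (hι s _ (fun h => hS.2 h.symm)) (fun i hi => hj s i hi)
        have h4 : (1 - theta)⁻¹ * ∑ i ∈ I, phi (B (i :: s)) (below F u (i :: s)) ≤
            (1 - theta)⁻¹ * (theta * phi (B s) (below F u s)) :=
          mul_le_mul_of_nonneg_left h3 (inv_nonneg.2 hθ.le)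
        have h5 : phi (B s) (below F u s) + (1 - theta)⁻¹ * (theta * phi (B s) (below F u s)) =
            (1 - theta)⁻¹ * phi (B s) (below F u s) := by
          field_simp
          ring
        linarith
      · have h2 : (if s ∈ F then g s else 0) = 0 := by
          by_cases hsF : s ∈ F
          · rw [if_pos hsF]
            have : ¬ (ι s ≠ j s) := fun h => hS ⟨hsF, h⟩
            simp only [hgdef]
            rw [if_neg this]
          · rw [if_neg hsF]
        rw [h2, zero_add]
        have h3 := node1 I (fun i => B (i :: s)) (fun i => below F u (i :: s)) (B s)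
          (below F u s) (fun i => hB.1 _) (fun i => hWm.1 _) (hB.2 s I) (hWm.2 s I)
        exact h1.trans (mul_le_mul_of_nonneg_left h3 (inv_nonneg.2 hθ.le))
  have h0 : ∃ n, ∀ t ∈ F, t.length < ([] : List ℕ).length + n := by
    refine ⟨F.sup List.length + 1, fun t ht => ?_⟩
    have := Finset.le_sup (f := List.length) ht
    simp only [List.length_nil]
    omega
  obtain ⟨n, hn⟩ := h0
  have h := key n [] hn
  have h1 : below F g [] = ∑ t ∈ F, g t := by
    unfold below
    refine Finset.sum_congr rfl fun t _ => ?_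
    rw [if_pos (List.nil_suffix)]
  rw [h1] at h
  exact h

end Pool.Agent.MP_2f2b65
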