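import Mathlib
import Pool.Agent.Lib.MP_2f2b65_an.Node

set_option autoImplicit false

open Finset RealInnerProductSpace

namespace Pool.Agent.MP_2f2b65

/-- The Baire space. -/
abbrev Bai : Type := ℕ → ℕ

/-- The Hilbert space over the points of the Baire space. -/
abbrev H : Type := lp (fun _ : Bai => ℝ) 2

/-- `In s x` : the sequence `x` passes through the node `s` -/
def In (s : List ℕ) (x : Bai) : Prop := PiNat.res x s.length = s

theorem in_nil (x : Bai) : In [] x := rfl

theorem in_cons {s : List ℕ} {i : ℕ} {x : Bai} : In (i :: s) x ↔ x s.length = i ∧ In s x := by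
  unfold In
  rw [List.length_cons, PiNat.res_succ, List.cons.injEq]

theorem toReal_two_pos : (0 : ℝ) < ENNReal.toReal 2 := by simp

theorem P_mem (t : List ℕ) (b : H) :
    Memℓp (fun x : Bai => (by classical exact if In t x then b x else 0 : ℝ)) 2 := by
  classical
  refine (lp.memℓp b).mono' fun x => ?_
  by_cases h : In t x
  · simp [h]
  · simp [h]

/-- The coordinate projection onto the coordinates in a cylinder. -/
noncomputable def P (t : List ℕ) : H →ₗ[ℝ] H where
  toFun b := ⟨_, P_mem t b⟩
  map_add' a b := by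
    ext x
    by_cases h : In t x
    · simp [h]
    · simp [h]
  map_smul' r b := by
    ext x
    by_cases h : In t x
    · simp [h]
    · simp [h]

theorem P_apply_pos {t : List ℕ} {x : Bai} (h : In t x) (b : H) : (P t b) x = b x := by
  classical
  change (if In t x then b x else 0 : ℝ) = b x
  rw [if_pos h]

theorem P_apply_neg {t : List ℕ} {x : Bai} (h : ¬ In t x) (b : H) : (P t b) x = 0 := by
  classical
  change (if In t x then b x else 0 : ℝ) = 0
  rw [if_neg h]

theorem inner_P (t : List ℕ) (a b : H) : ⟪a, P t b⟫ = ⟪P t a, b⟫ := by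
  rw [lp.inner_eq_tsum, lp.inner_eq_tsum]
  refine tsum_congr fun x => ?_
  by_cases h : In t x
  · rw [P_apply_pos h, P_apply_pos h]
  · rw [P_apply_neg h, P_apply_neg h]
    simp

theorem norm_sq (b : H) : ‖b‖ ^ 2 = ∑' x, (b x) ^ 2 := by
  rw [← real_inner_self_eq_norm_sq, lp.inner_eq_tsum]
  refine tsum_congr fun x => ?_
  simp [sq]

theorem summable_sq (b : H) : Summable fun x => (b x) ^ 2 := by
  have := lp.summable_inner (𝕜 := ℝ) b b
  refine this.congr fun x => ?_
  simp [sq]

/-- The mass of `b` at the node `t`. -/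
noncomputable def mass (b : H) (t : List ℕ) : ℝ := ‖P t b‖ ^ 2

theorem mass_isMass (b : H) : IsMass (mass b) := by
  classical
  refine ⟨fun s => sq_nonneg _, fun s I => ?_⟩
  unfold mass
  simp only [norm_sq]
  rw [← Summable.tsum_finsetSum (fun i _ => summable_sq _)]
  refine Summable.tsum_le_tsum (fun x => ?_) (summable_sum fun i _ => summable_sq _) (summable_sq _)
  by_cases h : ∃ i, In (i :: s) x
  · obtain ⟨i, hi⟩ := h
    rw [P_apply_pos (in_cons.1 hi).2]
    have : ∀ k ∈ I, ((P (k :: s) b) x) ^ 2 = if k = i then (b x) ^ 2 else 0 := by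
      intro k _
      by_cases hk : k = i
      · subst hk; rw [P_apply_pos hi, if_pos rfl]
      · rw [if_neg hk, P_apply_neg]
        · simp
        · intro h
          exact hk ((in_cons.1 h).1.symm.trans (in_cons.1 hi).1)
    rw [Finset.sum_congr rfl this, Finset.sum_ite_eq']
    split_ifs
    · exact le_rfl
    · positivity
  · push Not at h
    rw [Finset.sum_eq_zero fun k _ => ?_]
    · positivity
    · rw [P_apply_neg (h k)]
      simp

theorem norm_P_le (t : List ℕ) (b : H) : ‖P t b‖ ≤ ‖b‖ := by
  refine le_of_sq_le_sq ?_ (norm_nonneg _)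
  rw [norm_sq, norm_sq]
  refine Summable.tsum_le_tsum (fun x => ?_) (summable_sq _) (summable_sq _)
  by_cases h : In t x
  · rw [P_apply_pos h]
  · rw [P_apply_neg h]
    simp only [ne_eq, OfNat.ofNat_ne_zero, not_false_eq_true, zero_pow]
    exact sq_nonneg _

theorem sqrt_mass (b : H) (t : List ℕ) : √(mass b t) = ‖P t b‖ := by
  unfold mass
  exact Real.sqrt_sq (norm_nonneg _)

theorem norm_P_cons_le (s : List ℕ) (i : ℕ) (b : H) : ‖P (i :: s) b‖ ≤ ‖P s b‖ := by
  have h := (mass_isMass b).2 s {i}
  rw [Finset.sum_singleton] at h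
  rw [← sqrt_mass, ← sqrt_mass]
  exact Real.sqrt_le_sqrt h

/-- The unit vectors. -/
noncomputable def ee (x : Bai) : H := by
  classical exact lp.single 2 x (1 : ℝ)

theorem norm_ee (x : Bai) : ‖ee x‖ = 1 := by
  classical
  unfold ee
  rw [lp.norm_single (by norm_num)]
  simp

theorem P_ee_pos {t : List ℕ} {x : Bai} (h : In t x) : P t (ee x) = ee x := by
  classical
  ext y
  by_cases hy : In t y
  · rw [P_apply_pos hy]
  · rw [P_apply_neg hy]
    have : y ≠ x := fun h' => hy (h' ▸ h)
    unfold ee
    rw [lp.single_apply_ne _ _ _ this]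

theorem P_ee_neg {t : List ℕ} {x : Bai} (h : ¬ In t x) : P t (ee x) = 0 := by
  classical
  ext y
  by_cases hy : In t y
  · rw [P_apply_pos hy]
    have : y ≠ x := fun h' => h (h' ▸ hy)
    unfold ee
    rw [lp.single_apply_ne _ _ _ this]
    rfl
  · rw [P_apply_neg hy]
    rfl

theorem inner_ee_self (x : Bai) : ⟪ee x, ee x⟫ = (1 : ℝ) := by
  rw [real_inner_self_eq_norm_sq, norm_ee]
  norm_num

/-- The choice function of the branch `x`. -/
def br (x : Bai) (s : List ℕ) : ℕ := x s.length

theorem main_br (x : Bai) : Main (mass (ee x)) (br x) := by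
  intro s i hi
  have h : ¬ In (i :: s) x := fun h => hi (in_cons.1 h).1.symm
  have h2 : mass (ee x) (i :: s) = 0 := by
    unfold mass
    rw [P_ee_neg h]
    simp
  rw [h2, mul_zero]
  exact (mass_isMass _).1 s

end Pool.Agent.MP_2f2b65
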