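import Mathlib
import Pool.Agent.Lib.MP_2f2b65_an.Hilb

set_option autoImplicit false

open Finset RealInnerProductSpace

namespace Pool.Agent.MP_2f2b65

/-- Finitely supported families of vectors, indexed by the edges `(s, i)` of the tree. -/
abbrev WW : Type := (List ℕ × ℕ) →₀ H

noncomputable def av (w : WW) (s : List ℕ) : ℝ := ⨆ i, ‖w (s, i)‖

theorem av_bdd (w : WW) (s : List ℕ) : BddAbove (Set.range fun i => ‖w (s, i)‖) := by
  refine ⟨∑ t ∈ w.support, ‖w t‖, ?_⟩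
  rintro _ ⟨i, rfl⟩
  by_cases h : (s, i) ∈ w.support
  · exact Finset.single_le_sum (f := fun t => ‖w t‖) (fun _ _ => norm_nonneg _) h
  · dsimp only
    rw [Finsupp.notMem_support_iff.1 h, norm_zero]
    positivity

theorem le_av (w : WW) (s : List ℕ) (i : ℕ) : ‖w (s, i)‖ ≤ av w s := le_ciSup (av_bdd w s) i

theorem av_nonneg (w : WW) (s : List ℕ) : 0 ≤ av w s := (norm_nonneg _).trans (le_av w s 0)

theorem av_le {w : WW} {s : List ℕ} {C : ℝ} (h : ∀ i, ‖w (s, i)‖ ≤ C) : av w s ≤ C := ciSup_le h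

theorem av_add (w v : WW) (s : List ℕ) : av (w + v) s ≤ av w s + av v s := by
  refine av_le fun i => ?_
  rw [Finsupp.add_apply]
  exact (norm_add_le _ _).trans (add_le_add (le_av w s i) (le_av v s i))

theorem av_smul (r : ℝ) (w : WW) (s : List ℕ) : av (r • w) s = |r| * av w s := by
  unfold av
  rw [Real.mul_iSup_of_nonneg (abs_nonneg r)]
  refine iSup_congr fun i => ?_
  rw [Finsupp.smul_apply, norm_smul, Real.norm_eq_abs]

noncomputable def nodes (w : WW) : Finset (List ℕ) := w.support.image Prod.fst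

theorem apply_eq_zero {w : WW} {s : List ℕ} (h : s ∉ nodes w) (i : ℕ) : w (s, i) = 0 := by
  by_contra h'
  exact h (Finset.mem_image.2 ⟨(s, i), Finsupp.mem_support_iff.2 h', rfl⟩)

theorem av_eq_zero {w : WW} {s : List ℕ} (h : s ∉ nodes w) : av w s = 0 := by
  refine le_antisymm (av_le fun i => ?_) (av_nonneg w s)
  rw [apply_eq_zero h, norm_zero]

noncomputable def pw (w : WW) : ℝ := ∑ s ∈ nodes w, (av w s) ^ (4 / 3 : ℝ)

theorem pw_eq {w : WW} {F : Finset (List ℕ)} (h : nodes w ⊆ F) :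
    pw w = ∑ s ∈ F, (av w s) ^ (4 / 3 : ℝ) := by
  unfold pw
  refine Finset.sum_subset h fun s _ hs => ?_
  rw [av_eq_zero hs, Real.zero_rpow (by norm_num)]

theorem pw_nonneg (w : WW) : 0 ≤ pw w :=
  Finset.sum_nonneg fun s _ => Real.rpow_nonneg (av_nonneg w s) _

noncomputable def p2 (w : WW) : ℝ := (pw w) ^ (3 / 4 : ℝ)

theorem p2_nonneg (w : WW) : 0 ≤ p2 w := Real.rpow_nonneg (pw_nonneg w) _

theorem p2_rpow (w : WW) : (p2 w) ^ (4 / 3 : ℝ) = pw w := by
  unfold p2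
  rw [← Real.rpow_mul (pw_nonneg w)]
  norm_num

theorem p2_add_le (w v : WW) : p2 (w + v) ≤ p2 w + p2 v := by
  classical
  set F := nodes w ∪ nodes v ∪ nodes (w + v) with hF
  have h1 : nodes w ⊆ F := fun s hs => by simp [hF, hs]
  have h2 : nodes v ⊆ F := fun s hs => by simp [hF, hs]
  have h3 : nodes (w + v) ⊆ F := fun s hs => by simp [hF, hs]
  unfold p2
  rw [pw_eq h1, pw_eq h2, pw_eq h3]
  have h := Real.Lp_add_le_of_nonneg (s := F) (p := 4 / 3) (f := av w) (g := av v) (by norm_num)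
    (fun i _ => av_nonneg w i) (fun i _ => av_nonneg v i)
  have h4 : (1 : ℝ) / (4 / 3) = 3 / 4 := by norm_num
  rw [h4] at h
  refine le_trans ?_ h
  refine Real.rpow_le_rpow (Finset.sum_nonneg fun s _ => Real.rpow_nonneg (av_nonneg _ s) _) ?_
    (by norm_num)
  exact Finset.sum_le_sum fun s _ => Real.rpow_le_rpow (av_nonneg _ s) (av_add w v s) (by norm_num)

theorem p2_smul (r : ℝ) (w : WW) : p2 (r • w) = |r| * p2 w := by
  classical
  set F := nodes w ∪ nodes (r • w) with hF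
  have h1 : nodes w ⊆ F := fun s hs => by simp [hF, hs]
  have h3 : nodes (r • w) ⊆ F := fun s hs => by simp [hF, hs]
  have h4 : pw (r • w) = |r| ^ (4 / 3 : ℝ) * pw w := by
    rw [pw_eq h1, pw_eq h3, Finset.mul_sum]
    refine Finset.sum_congr rfl fun s _ => ?_
    rw [av_smul, Real.mul_rpow (abs_nonneg r) (av_nonneg w s)]
  unfold p2
  rw [h4, Real.mul_rpow (Real.rpow_nonneg (abs_nonneg r) _) (pw_nonneg w),
    ← Real.rpow_mul (abs_nonneg r)]
  norm_num

theorem p2_zero : p2 0 = 0 := by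
  have := p2_smul 0 0
  simpa using this

theorem av_le_p2 (w : WW) (s : List ℕ) : av w s ≤ p2 w := by
  classical
  have h1 : nodes w ⊆ insert s (nodes w) := Finset.subset_insert _ _
  have h2 : (av w s) ^ (4 / 3 : ℝ) ≤ pw w := by
    rw [pw_eq h1]
    exact Finset.single_le_sum (f := fun s => (av w s) ^ (4 / 3 : ℝ))
      (fun t _ => Real.rpow_nonneg (av_nonneg w t) _) (Finset.mem_insert_self _ _)
  have h3 : ((av w s) ^ (4 / 3 : ℝ)) ^ (3 / 4 : ℝ) = av w s := by
    rw [← Real.rpow_mul (av_nonneg w s)]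
    norm_num
  rw [← h3]
  exact Real.rpow_le_rpow (Real.rpow_nonneg (av_nonneg w s) _) h2 (by norm_num)

theorem norm_le_p2 (w : WW) (t : List ℕ × ℕ) : ‖w t‖ ≤ p2 w := (le_av w t.1 t.2).trans (av_le_p2 w t.1)

/-- If all entries of `w` sit at the node `s` then `p2 w ≤ sup`. -/
theorem p2_le_of_node {w : WW} {s : List ℕ} {C : ℝ} (h0 : ∀ t, t.1 ≠ s → w t = 0)
    (h : ∀ i, ‖w (s, i)‖ ≤ C) : p2 w ≤ C := by
  classical
  have h1 : nodes w ⊆ {s} := by
    intro t ht
    obtain ⟨t', ht', rfl⟩ := Finset.mem_image.1 ht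
    rw [Finset.mem_singleton]
    by_contra hne
    exact (Finsupp.mem_support_iff.1 ht') (h0 t' hne)
  have h2 : pw w = (av w s) ^ (4 / 3 : ℝ) := by
    rw [pw_eq h1, Finset.sum_singleton]
  unfold p2
  rw [h2, ← Real.rpow_mul (av_nonneg w s)]
  norm_num
  exact av_le h

/-! ### The functionals -/

noncomputable def psiW (b : H) (ι : List ℕ → ℕ) (w : WW) : ℝ :=
  ∑ s ∈ nodes w, ⟪P (ι s :: s) b, w (s, ι s)⟫

theorem psiW_eq (b : H) (ι : List ℕ → ℕ) {w : WW} {F : Finset (List ℕ)} (h : nodes w ⊆ F) :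
    psiW b ι w = ∑ s ∈ F, ⟪P (ι s :: s) b, w (s, ι s)⟫ := by
  unfold psiW
  refine Finset.sum_subset h fun s _ hs => ?_
  rw [apply_eq_zero hs, inner_zero_right]

theorem psiW_add (b : H) (ι : List ℕ → ℕ) (w v : WW) :
    psiW b ι (w + v) = psiW b ι w + psiW b ι v := by
  classical
  set F := nodes w ∪ nodes v ∪ nodes (w + v) with hF
  have h1 : nodes w ⊆ F := fun s hs => by simp [hF, hs]
  have h2 : nodes v ⊆ F := fun s hs => by simp [hF, hs]
  have h3 : nodes (w + v) ⊆ F := fun s hs => by simp [hF, hs]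
  rw [psiW_eq b ι h1, psiW_eq b ι h2, psiW_eq b ι h3, ← Finset.sum_add_distrib]
  refine Finset.sum_congr rfl fun s _ => ?_
  rw [Finsupp.add_apply, inner_add_right]

theorem psiW_smul (b : H) (ι : List ℕ → ℕ) (r : ℝ) (w : WW) :
    psiW b ι (r • w) = r * psiW b ι w := by
  classical
  set F := nodes w ∪ nodes (r • w) with hF
  have h1 : nodes w ⊆ F := fun s hs => by simp [hF, hs]
  have h3 : nodes (r • w) ⊆ F := fun s hs => by simp [hF, hs]
  rw [psiW_eq b ι h1, psiW_eq b ι h3, Finset.mul_sum]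
  refine Finset.sum_congr rfl fun s _ => ?_
  rw [Finsupp.smul_apply, real_inner_smul_right]

theorem abs_psiW_le (b : H) (ι : List ℕ → ℕ) (w : WW) :
    |psiW b ι w| ≤ ‖b‖ * ∑ s ∈ nodes w, av w s := by
  unfold psiW
  refine (Finset.abs_sum_le_sum_abs _ _).trans ?_
  rw [Finset.mul_sum]
  refine Finset.sum_le_sum fun s _ => ?_
  refine (abs_real_inner_le_norm _ _).trans ?_
  exact mul_le_mul (norm_P_le _ _) (le_av w s _) (norm_nonneg _) (norm_nonneg _)

/-- If all entries of `w` sit at the node `s`. -/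
theorem psiW_of_node (b : H) (ι : List ℕ → ℕ) {w : WW} {s : List ℕ}
    (h0 : ∀ t, t.1 ≠ s → w t = 0) : psiW b ι w = ⟪P (ι s :: s) b, w (s, ι s)⟫ := by
  classical
  have h1 : nodes w ⊆ {s} := by
    intro t ht
    obtain ⟨t', ht', rfl⟩ := Finset.mem_image.1 ht
    rw [Finset.mem_singleton]
    by_contra hne
    exact (Finsupp.mem_support_iff.1 ht') (h0 t' hne)
  rw [psiW_eq b ι h1, Finset.sum_singleton]

/-- The algebraic twisted sum. -/
def XA : Type := H × WW

noncomputable instance : AddCommGroup XA := inferInstanceAs (AddCommGroup (H × WW))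
noncomputable instance : Module ℝ XA := inferInstanceAs (Module ℝ (H × WW))

noncomputable def psi (b : H) (ι : List ℕ → ℕ) (x : XA) : ℝ := ⟪b, x.1⟫ + psiW b ι x.2

theorem psi_add (b : H) (ι : List ℕ → ℕ) (x y : XA) : psi b ι (x + y) = psi b ι x + psi b ι y := by
  unfold psi
  have h1 : (x + y).1 = x.1 + y.1 := rfl
  have h2 : (x + y).2 = x.2 + y.2 := rfl
  rw [h1, h2, inner_add_right, psiW_add]
  ring

theorem psi_smul (b : H) (ι : List ℕ → ℕ) (r : ℝ) (x : XA) : psi b ι (r • x) = r * psi b ι x := by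
  unfold psi
  have h1 : (r • x).1 = r • x.1 := rfl
  have h2 : (r • x).2 = r • x.2 := rfl
  rw [h1, h2, real_inner_smul_right, psiW_smul]
  ring

/-- Admissible functionals. -/
abbrev DD : Type := {d : H × (List ℕ → ℕ) // ‖d.1‖ ≤ 1 ∧ Main (mass d.1) d.2}

instance : Nonempty DD := by
  refine ⟨⟨(0, fun _ => 0), by simp, ?_⟩⟩
  intro s i _
  have h : ∀ t, mass 0 t = 0 := by
    intro t
    unfold mass
    simp
  simp [h]

noncomputable def n1 (x : XA) : ℝ := ⨆ d : DD, |psi d.1.1 d.1.2 x|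

theorem n1_bdd (x : XA) : BddAbove (Set.range fun d : DD => |psi d.1.1 d.1.2 x|) := by
  refine ⟨‖x.1‖ + ∑ s ∈ nodes x.2, av x.2 s, ?_⟩
  rintro _ ⟨d, rfl⟩
  dsimp only
  unfold psi
  refine (abs_add_le _ _).trans ?_
  have hs : 0 ≤ ∑ s ∈ nodes x.2, av x.2 s := Finset.sum_nonneg fun s _ => av_nonneg _ s
  refine add_le_add ?_ ?_
  · refine (abs_real_inner_le_norm _ _).trans ?_
    exact mul_le_of_le_one_left (norm_nonneg _) d.2.1
  · refine (abs_psiW_le _ _ _).trans ?_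
    exact mul_le_of_le_one_left hs d.2.1

theorem le_n1 {b : H} {ι : List ℕ → ℕ} (hb : ‖b‖ ≤ 1) (hι : Main (mass b) ι) (x : XA) :
    |psi b ι x| ≤ n1 x := le_ciSup (n1_bdd x) ⟨(b, ι), hb, hι⟩

theorem n1_le {x : XA} {C : ℝ}
    (h : ∀ (b : H) (ι : List ℕ → ℕ), ‖b‖ ≤ 1 → Main (mass b) ι → |psi b ι x| ≤ C) : n1 x ≤ C :=
  ciSup_le fun d => h d.1.1 d.1.2 d.2.1 d.2.2

theorem n1_nonneg (x : XA) : 0 ≤ n1 x := by
  obtain ⟨d⟩ : Nonempty DD := inferInstance
  exact (abs_nonneg _).trans (le_n1 d.2.1 d.2.2 x)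

theorem n1_add (x y : XA) : n1 (x + y) ≤ n1 x + n1 y := by
  refine n1_le fun b ι hb hι => ?_
  rw [psi_add]
  exact (abs_add_le _ _).trans (add_le_add (le_n1 hb hι x) (le_n1 hb hι y))

theorem n1_smul (r : ℝ) (x : XA) : n1 (r • x) = |r| * n1 x := by
  unfold n1
  rw [Real.mul_iSup_of_nonneg (abs_nonneg r)]
  refine iSup_congr fun d => ?_
  rw [psi_smul, abs_mul]

noncomputable instance : Norm XA := ⟨fun x => n1 x + p2 x.2⟩

theorem norm_def (x : XA) : ‖x‖ = n1 x + p2 x.2 := rfl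

theorem core : SeminormedSpace.Core ℝ XA where
  norm_nonneg x := add_nonneg (n1_nonneg x) (p2_nonneg _)
  norm_smul c x := by
    rw [norm_def, norm_def, n1_smul]
    have h : (c • x).2 = c • x.2 := rfl
    rw [h, p2_smul, Real.norm_eq_abs]
    ring
  norm_triangle x y := by
    rw [norm_def, norm_def, norm_def]
    have h : (x + y).2 = x.2 + y.2 := rfl
    rw [h]
    have h1 := n1_add x y
    have h2 := p2_add_le x.2 y.2
    linarith

noncomputable instance : SeminormedAddCommGroup XA := SeminormedAddCommGroup.ofCore core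
noncomputable instance : NormedSpace ℝ XA where
  norm_smul_le r x := (core.norm_smul r x).le

theorem norm_eq (x : XA) : ‖x‖ = n1 x + p2 x.2 := rfl

theorem p2_le_norm (x : XA) : p2 x.2 ≤ ‖x‖ := by
  rw [norm_eq]
  linarith [n1_nonneg x]

theorem psi_le_norm {b : H} {ι : List ℕ → ℕ} (hb : ‖b‖ ≤ 1) (hι : Main (mass b) ι) (x : XA) :
    |psi b ι x| ≤ ‖x‖ := by
  rw [norm_eq]
  linarith [le_n1 hb hι x, p2_nonneg x.2]

/-- The element `(y, w)`. -/
def mkX (y : H) (w : WW) : XA := (y, w)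

theorem mkX_fst (y : H) (w : WW) : (mkX y w).1 = y := rfl
theorem mkX_snd (y : H) (w : WW) : (mkX y w).2 = w := rfl
theorem mkX_eta (x : XA) : mkX x.1 x.2 = x := rfl
theorem mkX_add (y y' : H) (w w' : WW) : mkX y w + mkX y' w' = mkX (y + y') (w + w') := rfl
theorem mkX_smul (r : ℝ) (y : H) (w : WW) : r • mkX y w = mkX (r • y) (r • w) := rfl
theorem add_snd (x y : XA) : (x + y).2 = x.2 + y.2 := rfl
theorem smul_snd (r : ℝ) (x : XA) : (r • x).2 = r • x.2 := rfl

theorem psiW_zero (b : H) (ι : List ℕ → ℕ) : psiW b ι 0 = 0 := by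
  have := psiW_smul b ι 0 0
  simpa using this

/-- **(P1)** -/
theorem norm_inl (y : H) : ‖mkX y 0‖ = ‖y‖ := by
  rw [norm_eq, mkX_snd, p2_zero, add_zero]
  have hpsi : ∀ (b : H) (ι : List ℕ → ℕ), psi b ι (mkX y 0) = ⟪b, y⟫ := by
    intro b ι
    unfold psi
    rw [mkX_fst, mkX_snd, psiW_zero, add_zero]
  refine le_antisymm ?_ ?_
  · refine n1_le fun b ι hb hι => ?_
    rw [hpsi]
    exact (abs_real_inner_le_norm _ _).trans (mul_le_of_le_one_left (norm_nonneg _) hb)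
  · by_cases hy : y = 0
    · rw [hy, norm_zero]
      exact n1_nonneg _
    · have hy' : ‖y‖ ≠ 0 := norm_ne_zero_iff.2 hy
      obtain ⟨ι, hι⟩ := exists_main (mass_isMass (‖y‖⁻¹ • y))
      have hb : ‖‖y‖⁻¹ • y‖ ≤ 1 := by
        rw [norm_smul, norm_inv, norm_norm, inv_mul_cancel₀ hy']
      have h := le_n1 hb hι (mkX y 0)
      rw [hpsi, real_inner_smul_left, real_inner_self_eq_norm_sq] at h
      have h2 : ‖y‖⁻¹ * ‖y‖ ^ 2 = ‖y‖ := by
        field_simp
      rw [h2, abs_of_nonneg (norm_nonneg _)] at h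
      exact h

end Pool.Agent.MP_2f2b65
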