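import Mathlib
import Pool.Agent.Lib.MP_2f2b65_an.Space

set_option autoImplicit false

open Finset RealInnerProductSpace

namespace Pool.Agent.MP_2f2b65

theorem av_add_disj {w v : WW} (h : ∀ t ∈ w.support, v t = 0) (s : List ℕ) :
    (av (w + v) s) ^ (4 / 3 : ℝ) ≤ (av w s) ^ (4 / 3 : ℝ) + (av v s) ^ (4 / 3 : ℝ) := by
  have h1 : av (w + v) s ≤ max (av w s) (av v s) := by
    refine av_le fun i => ?_
    rw [Finsupp.add_apply]
    by_cases hm : (s, i) ∈ w.support
    · rw [h _ hm, add_zero]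
      exact (le_av w s i).trans (le_max_left _ _)
    · rw [Finsupp.notMem_support_iff.1 hm, zero_add]
      exact (le_av v s i).trans (le_max_right _ _)
  have h2 := Real.rpow_le_rpow (av_nonneg _ s) h1 (by norm_num : (0 : ℝ) ≤ 4 / 3)
  refine h2.trans ?_
  rcases max_choice (av w s) (av v s) with h3 | h3
  · rw [h3]
    exact le_add_of_nonneg_right (Real.rpow_nonneg (av_nonneg v s) _)
  · rw [h3]
    exact le_add_of_nonneg_left (Real.rpow_nonneg (av_nonneg w s) _)

theorem pw_add_disj {w v : WW} (h : ∀ t ∈ w.support, v t = 0) : pw (w + v) ≤ pw w + pw v := by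
  classical
  set F := nodes w ∪ nodes v ∪ nodes (w + v) with hF
  have h1 : nodes w ⊆ F := fun s hs => by simp [hF, hs]
  have h2 : nodes v ⊆ F := fun s hs => by simp [hF, hs]
  have h3 : nodes (w + v) ⊆ F := fun s hs => by simp [hF, hs]
  rw [pw_eq h1, pw_eq h2, pw_eq h3, ← Finset.sum_add_distrib]
  exact Finset.sum_le_sum fun s _ => av_add_disj h s

theorem pw_zero : pw 0 = 0 := by
  rw [← p2_rpow, p2_zero, Real.zero_rpow (by norm_num)]

/-- **(P6)** gliding hump -/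
theorem hump (G : WW →ₗ[ℝ] ℝ) (C : ℝ) (hG : ∀ w, |G w| ≤ C * p2 w) (ε : ℝ) (hε : 0 < ε) :
    ∃ F : Finset (List ℕ × ℕ), ∀ w : WW, (∀ t ∈ F, w t = 0) → |G w| ≤ ε * p2 w := by
  by_contra hcon
  push Not at hcon
  -- normalised humps
  have hv : ∀ F : Finset (List ℕ × ℕ), ∃ v : WW, (∀ t ∈ F, v t = 0) ∧ p2 v = 1 ∧ ε ≤ G v := by
    intro F
    obtain ⟨w, hw0, hw⟩ := hcon F
    have hp : 0 < p2 w := by
      rcases (p2_nonneg w).eq_or_lt with h | h
      · exfalso
        have := hG w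
        rw [← h, mul_zero] at this
        rw [← h, mul_zero] at hw
        linarith
      · exact h
    obtain ⟨σ, hσ, hσG⟩ : ∃ σ : ℝ, |σ| = 1 ∧ σ * G w = |G w| := by
      rcases le_total 0 (G w) with h | h
      · exact ⟨1, by simp, by rw [one_mul, abs_of_nonneg h]⟩
      · exact ⟨-1, by simp, by rw [abs_of_nonpos h]; ring⟩
    refine ⟨(σ * (p2 w)⁻¹) • w, fun t ht => by simp [hw0 t ht], ?_, ?_⟩
    · rw [p2_smul, abs_mul, hσ, one_mul, abs_of_pos (inv_pos.2 hp), inv_mul_cancel₀ hp.ne']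
    · rw [map_smul, smul_eq_mul]
      have : σ * (p2 w)⁻¹ * G w = |G w| / p2 w := by
        rw [← hσG]; field_simp
      rw [this, le_div_iff₀ hp]
      exact hw.le
  have hn : ∀ n : ℕ, ∃ w : WW, pw w ≤ n ∧ n * ε ≤ G w := by
    intro n
    induction n with
    | zero => exact ⟨0, by simp [pw_zero], by simp⟩
    | succ n ih =>
      obtain ⟨w, hw1, hw2⟩ := ih
      obtain ⟨v, hv0, hv1, hv2⟩ := hv w.support
      refine ⟨w + v, ?_, ?_⟩
      · have h1 := pw_add_disj hv0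
        have h2 : pw v = 1 := by rw [← p2_rpow, hv1, Real.one_rpow]
        push_cast
        linarith
      · rw [map_add]
        push_cast
        linarith
  -- contradiction
  obtain ⟨k, hk⟩ := exists_nat_gt (max (C / ε) 0)
  have hk0 : 0 < (k : ℝ) := lt_of_le_of_lt (le_max_right _ _) hk
  have hkC : C < k * ε := by
    have := lt_of_le_of_lt (le_max_left _ _) hk
    rwa [div_lt_iff₀ hε] at this
  obtain ⟨w, hw1, hw2⟩ := hn (k ^ 4)
  have h1 : p2 w ≤ (k : ℝ) ^ 3 := by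
    unfold p2
    have h2 : (pw w) ^ (3 / 4 : ℝ) ≤ ((k : ℝ) ^ 4) ^ (3 / 4 : ℝ) :=
      Real.rpow_le_rpow (pw_nonneg w) (by exact_mod_cast hw1) (by norm_num)
    refine h2.trans (le_of_eq ?_)
    rw [← Real.rpow_natCast, ← Real.rpow_natCast, ← Real.rpow_mul hk0.le]
    norm_num
  have h2 : |G w| ≤ C * p2 w := hG w
  have h3 : (k : ℝ) ^ 4 * ε ≤ C * p2 w := by
    refine le_trans ?_ ((le_abs_self _).trans h2)
    exact_mod_cast hw2
  have hC : 0 ≤ C := by
    by_contra hC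
    push Not at hC
    have : C * p2 w ≤ 0 := mul_nonpos_of_nonpos_of_nonneg hC.le (p2_nonneg w)
    have h5 : 0 < (k : ℝ) ^ 4 * ε := by positivity
    linarith
  have h4 : (k : ℝ) ^ 4 * ε ≤ C * (k : ℝ) ^ 3 := h3.trans (mul_le_mul_of_nonneg_left h1 hC)
  have h5 : C * (k : ℝ) ^ 3 < k * ε * (k : ℝ) ^ 3 := mul_lt_mul_of_pos_right hkC (by positivity)
  have h6 : k * ε * (k : ℝ) ^ 3 = (k : ℝ) ^ 4 * ε := by ring
  linarith

end Pool.Agent.MP_2f2b65
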