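import Mathlib
import Pool.Agent.Lib.MP_2f2b65_an.Space

set_option autoImplicit false

open Finset RealInnerProductSpace

namespace Pool.Agent.MP_2f2b65

theorem phi_eq {B W : ℝ} (hB : 0 ≤ B) (hW : 0 ≤ W) : phi B W = √B * W ^ (3 / 4 : ℝ) := by
  unfold phi
  rw [Real.sqrt_mul hB, mul_assoc]
  congr 1
  rcases hW.eq_or_lt with h | h
  · rw [← h]
    simp
  · rw [Real.sqrt_eq_rpow, Real.sqrt_eq_rpow, ← Real.rpow_mul hW, ← Real.rpow_add h]
    norm_num

/-- The lifting constant. -/
noncomputable def KK : ℝ := 2 * (1 - theta)⁻¹ + 1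

theorem KK_pos : 0 < KK := by
  unfold KK
  have : 0 < 1 - theta := by linarith [theta_lt_one]
  positivity

/-- **(P4)** -/
theorem lift (w : WW) : ∃ y : H, ‖mkX y w‖ ≤ KK * p2 w := by
  classical
  set F := nodes w with hF
  set u : List ℕ → ℝ := fun t => (av w t) ^ (4 / 3 : ℝ) with hu
  have hu0 : ∀ t, 0 ≤ u t := fun t => Real.rpow_nonneg (av_nonneg w t) _
  obtain ⟨j, hj⟩ := exists_main (below_isMass F hu0)
  set y : H := - ∑ s ∈ F, P (j s :: s) (w (s, j s)) with hy
  refine ⟨y, ?_⟩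
  have hθ : 0 < 1 - theta := by linarith [theta_lt_one]
  have h0 : below F u [] = pw w := by
    unfold below pw
    refine Finset.sum_congr rfl fun t _ => ?_
    rw [if_pos (List.nil_suffix)]
  have hn1 : n1 (mkX y w) ≤ 2 * (1 - theta)⁻¹ * p2 w := by
    refine n1_le fun b ι hb hι => ?_
    have h1 : psi b ι (mkX y w) =
        ∑ s ∈ F, (⟪P (ι s :: s) b, w (s, ι s)⟫ - ⟪P (j s :: s) b, w (s, j s)⟫) := by
      unfold psi
      rw [mkX_fst, mkX_snd, hy, inner_neg_right, inner_sum, Finset.sum_sub_distrib]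
      unfold psiW
      have : ∑ s ∈ F, ⟪b, P (j s :: s) (w (s, j s))⟫ = ∑ s ∈ F, ⟪P (j s :: s) b, w (s, j s)⟫ :=
        Finset.sum_congr rfl fun s _ => inner_P _ _ _
      rw [this]
      ring
    rw [h1]
    refine (Finset.abs_sum_le_sum_abs _ _).trans ?_
    have h2 : ∀ s ∈ F, |⟪P (ι s :: s) b, w (s, ι s)⟫ - ⟪P (j s :: s) b, w (s, j s)⟫| ≤
        2 * (if ι s ≠ j s then √(mass b s) * av w s else 0) := by
      intro s _
      by_cases hs : ι s = j s
      · rw [hs]
        simp
      · rw [if_pos hs, sqrt_mass]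
        have h3 : ∀ i, |⟪P (i :: s) b, w (s, i)⟫| ≤ ‖P s b‖ * av w s := by
          intro i
          refine (abs_real_inner_le_norm _ _).trans ?_
          exact mul_le_mul (norm_P_cons_le s i b) (le_av w s i) (norm_nonneg _) (norm_nonneg _)
        have h4 := abs_sub (⟪P (ι s :: s) b, w (s, ι s)⟫) (⟪P (j s :: s) b, w (s, j s)⟫)
        have h5 := h3 (ι s)
        have h6 := h3 (j s)
        linarith
    refine (Finset.sum_le_sum h2).trans ?_
    rw [← Finset.mul_sum]
    have hau : ∀ t ∈ F, √(mass b t) * av w t ≤ phi (mass b t) (below F u t) := by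
      intro t ht
      have hW0 := below_nonneg F hu0 t
      rw [phi_eq ((mass_isMass b).1 t) hW0]
      refine mul_le_mul_of_nonneg_left ?_ (Real.sqrt_nonneg _)
      have h7 : u t ≤ below F u t := le_below F hu0 ht
      have h8 : (u t) ^ (3 / 4 : ℝ) = av w t := by
        simp only [hu]
        rw [← Real.rpow_mul (av_nonneg w t)]
        norm_num
      rw [← h8]
      exact Real.rpow_le_rpow (hu0 t) h7 (by norm_num)
    have h9 := tree_bound F (av w) u (av_nonneg w) hu0 (mass b) (mass_isMass b) ι j hι hj hau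
    have h10 : phi (mass b []) (below F u []) ≤ p2 w := by
      rw [phi_eq ((mass_isMass b).1 []) (below_nonneg F hu0 []), h0, sqrt_mass]
      refine mul_le_of_le_one_left (p2_nonneg w) ?_
      exact (norm_P_le [] b).trans hb
    have h11 : (1 - theta)⁻¹ * phi (mass b []) (below F u []) ≤ (1 - theta)⁻¹ * p2 w :=
      mul_le_mul_of_nonneg_left h10 (inv_nonneg.2 hθ.le)
    linarith
  rw [norm_eq, mkX_snd]
  unfold KK
  linarith

end Pool.Agent.MP_2f2b65
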