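import Mathlib
import Pool.Agent.Lib.MP_2f2b65_an.Lift
import Pool.Agent.Lib.MP_2f2b65_an.Hump
import Pool.Agent.Lib.MP_2f2b65_an.Crit

set_option autoImplicit false

open Finset RealInnerProductSpace Filter Topology

namespace Pool.Agent.MP_2f2b65

/-- The Banach space. -/
abbrev XX : Type := UniformSpace.Completion XA

noncomputable def toX : XA →ₗᵢ[ℝ] XX := UniformSpace.Completion.toComplₗᵢ

theorem toX_apply (x : XA) : toX x = (x : XX) := rfl

theorem dense_toX : DenseRange (toX.toContinuousLinearMap : XA → XX) :=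
  UniformSpace.Completion.denseRange_coe

theorem ui_toX : IsUniformInducing (toX.toContinuousLinearMap : XA → XX) :=
  UniformSpace.Completion.isUniformInducing_coe _

noncomputable def JA : H →ₗᵢ[ℝ] XA where
  toFun y := mkX y 0
  map_add' a b := by
    rw [mkX_add, add_zero]
  map_smul' r a := by
    rw [RingHom.id_apply, mkX_smul, smul_zero]
  norm_map' y := norm_inl y

noncomputable def J : H →ₗᵢ[ℝ] XX := toX.comp JA

theorem J_apply (y : H) : J y = toX (mkX y 0) := rfl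

/-- The subspace `Y`. -/
noncomputable def YY : Submodule ℝ XX := LinearMap.range J.toLinearMap

theorem mem_YY {x : XX} : x ∈ YY ↔ ∃ y, J y = x := LinearMap.mem_range

theorem isClosed_YY : IsClosed (YY : Set XX) := by
  have h : (YY : Set XX) = Set.range J := by
    ext x
    exact mem_YY
  rw [h]
  exact J.isometry.isClosedEmbedding.isClosed_range

/-- `Y` carries a WUR norm. -/
theorem wurable_YY : WURable YY := by
  refine wurable_of_parallelogram _ ?_
  rintro ⟨a, ha⟩ ⟨b, hb⟩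
  obtain ⟨a, rfl⟩ := mem_YY.1 ha
  obtain ⟨b, rfl⟩ := mem_YY.1 hb
  change ‖J a - J b‖ ^ 2 ≤ 2 * ‖J a‖ ^ 2 + 2 * ‖J b‖ ^ 2 - ‖J a + J b‖ ^ 2
  rw [← map_sub, ← map_add, J.norm_map, J.norm_map, J.norm_map, J.norm_map]
  have := parallelogram_law_with_norm ℝ a b
  nlinarith

/-! ### the branch functionals -/

noncomputable def fA (x : Bai) : XA →L[ℝ] ℝ :=
  LinearMap.mkContinuous
    { toFun := fun a => psi (ee x) (br x) a
      map_add' := fun a b => psi_add _ _ a b
      map_smul' := fun r a => psi_smul _ _ r a } 1 (fun a => by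
        rw [one_mul]
        exact psi_le_norm (norm_ee x).le (main_br x) a)

noncomputable def fX (x : Bai) : XX →L[ℝ] ℝ := (fA x).extend toX.toContinuousLinearMap

theorem fX_apply (x : Bai) (a : XA) : fX x (toX a) = psi (ee x) (br x) a :=
  ContinuousLinearMap.extend_eq (fA x) dense_toX ui_toX a

/-! ### the coordinates -/

/-- The Hilbert space controlling the quotient. -/
abbrev L2 : Type := lp (fun _ : List ℕ × ℕ => H) 2

noncomputable def eps (t : List ℕ × ℕ) : ℝ := √((1 / 2 : ℝ) ^ Encodable.encode t)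

theorem eps_pos (t : List ℕ × ℕ) : 0 < eps t := Real.sqrt_pos.2 (by positivity)

theorem eps_sq (t : List ℕ × ℕ) : (eps t) ^ 2 = (1 / 2 : ℝ) ^ Encodable.encode t :=
  Real.sq_sqrt (by positivity)

theorem RA_mem (x : XA) : Memℓp (fun t : List ℕ × ℕ => eps t • x.2 t) 2 := by
  refine Memℓp.of_exponent_ge (memℓp_zero ?_) zero_le
  refine (x.2.support.finite_toSet).subset fun t ht => ?_
  rw [Finset.mem_coe, Finsupp.mem_support_iff]
  intro h0
  exact ht (by simp [h0])

noncomputable def RAl : XA →ₗ[ℝ] L2 where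
  toFun x := ⟨_, RA_mem x⟩
  map_add' a b := by
    ext1
    funext t
    change eps t • ((a + b).2 t) = eps t • a.2 t + eps t • b.2 t
    rw [add_snd, Finsupp.add_apply, smul_add]
  map_smul' r a := by
    ext1
    funext t
    change eps t • ((r • a).2 t) = r • (eps t • a.2 t)
    rw [smul_snd, Finsupp.smul_apply, smul_comm]

theorem RAl_apply (x : XA) (t : List ℕ × ℕ) : (RAl x) t = eps t • x.2 t := rfl

noncomputable def SS : ℝ := ∑' t : List ℕ × ℕ, (1 / 2 : ℝ) ^ Encodable.encode t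

theorem norm_RAl_le (x : XA) : ‖RAl x‖ ≤ √SS * ‖x‖ := by
  have hS : Summable fun t : List ℕ × ℕ => (1 / 2 : ℝ) ^ Encodable.encode t :=
    summable_geometric_two_encode
  have hS0 : 0 ≤ SS := tsum_nonneg fun t => by positivity
  refine le_of_sq_le_sq ?_ (by positivity)
  rw [mul_pow, Real.sq_sqrt hS0, ← real_inner_self_eq_norm_sq, lp.inner_eq_tsum]
  have h1 : ∀ t, ⟪(RAl x) t, (RAl x) t⟫ ≤ (1 / 2 : ℝ) ^ Encodable.encode t * ‖x‖ ^ 2 := by
    intro t
    rw [real_inner_self_eq_norm_sq, RAl_apply, norm_smul, mul_pow, Real.norm_eq_abs, sq_abs, eps_sq]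
    refine mul_le_mul_of_nonneg_left ?_ (by positivity)
    exact pow_le_pow_left₀ (norm_nonneg _) ((norm_le_p2 _ t).trans (p2_le_norm x)) 2
  calc ∑' t, ⟪(RAl x) t, (RAl x) t⟫ ≤ ∑' t, (1 / 2 : ℝ) ^ Encodable.encode t * ‖x‖ ^ 2 :=
        Summable.tsum_le_tsum h1 (lp.summable_inner _ _) (hS.mul_right _)
    _ = SS * ‖x‖ ^ 2 := by rw [tsum_mul_right]; rfl

noncomputable def RA : XA →L[ℝ] L2 := RAl.mkContinuous (√SS) norm_RAl_le

noncomputable def RX : XX →L[ℝ] L2 := RA.extend toX.toContinuousLinearMap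

theorem RX_apply (a : XA) : RX (toX a) = RAl a :=
  ContinuousLinearMap.extend_eq RA dense_toX ui_toX a

theorem RX_YY : YY ≤ LinearMap.ker RX.toLinearMap := by
  intro x hx
  obtain ⟨y, rfl⟩ := mem_YY.1 hx
  rw [LinearMap.mem_ker]
  change RX (J y) = 0
  rw [J_apply, RX_apply]
  ext1
  funext t
  rw [RAl_apply, mkX_snd]
  simp

/-- The quotient. -/
abbrev QQ : Type := XX ⧸ YY

noncomputable def RQ : QQ →ₗ[ℝ] L2 := YY.liftQ RX.toLinearMap RX_YY

theorem RQ_mk (x : XX) : RQ (Submodule.Quotient.mk x) = RX x := rfl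

theorem norm_RQ_le (q : QQ) : ‖RQ q‖ ≤ ‖RX‖ * ‖q‖ := by
  refine le_of_forall_pos_le_add fun ε hε => ?_
  obtain ⟨x, rfl, hx⟩ := Submodule.Quotient.norm_mk_lt q
    (show 0 < ε / (‖RX‖ + 1) by positivity)
  rw [RQ_mk]
  refine (RX.le_opNorm x).trans ?_
  have h1 : ‖RX‖ * ‖x‖ ≤ ‖RX‖ * (‖(Submodule.Quotient.mk x : QQ)‖ + ε / (‖RX‖ + 1)) :=
    mul_le_mul_of_nonneg_left hx.le (norm_nonneg _)
  refine h1.trans ?_
  rw [mul_add]
  have h2 : ‖RX‖ * (ε / (‖RX‖ + 1)) ≤ ε := by
    rw [mul_div_assoc', div_le_iff₀ (by positivity)]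
    nlinarith [norm_nonneg RX]
  linarith

/-- The quotient norm dominates `p2`. -/
theorem p2_le_norm_mk (a : XA) : p2 a.2 ≤ ‖(Submodule.Quotient.mk (toX a) : QQ)‖ := by
  refine le_of_forall_pos_le_add fun ε hε => ?_
  obtain ⟨x, hx0, hx⟩ := Submodule.Quotient.norm_mk_lt
    (Submodule.Quotient.mk (toX a) : QQ) hε
  have h1 : x - toX a ∈ YY := (Submodule.Quotient.eq YY).1 hx0
  obtain ⟨y, hy⟩ := mem_YY.1 h1
  have h2 : x = toX (mkX y 0 + a) := by
    rw [map_add, ← J_apply, hy]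
    abel
  rw [h2, LinearIsometry.norm_map] at hx
  have h3 := p2_le_norm (mkX y 0 + a)
  rw [add_snd, mkX_snd, zero_add] at h3
  linarith

/-- **(P5)** -/
theorem abs_G_le (g : QQ →L[ℝ] ℝ) (a : XA) :
    |g (Submodule.Quotient.mk (toX a))| ≤ ‖g‖ * KK * p2 a.2 := by
  obtain ⟨y, hy⟩ := lift a.2
  have h1 : (Submodule.Quotient.mk (toX a) : QQ) = Submodule.Quotient.mk (toX (mkX y a.2)) := by
    rw [Submodule.Quotient.eq]
    refine mem_YY.2 ⟨a.1 - y, ?_⟩
    rw [J_apply, ← map_sub]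
    congr 1
    have : a = mkX a.1 a.2 := (mkX_eta a).symm
    conv_rhs => rw [this]
    change mkX (a.1 - y) 0 = mkX (a.1 - y) (a.2 - a.2)
    rw [sub_self]
  rw [h1]
  have h2 := g.le_opNorm (Submodule.Quotient.mk (toX (mkX y a.2)) : QQ)
  rw [Real.norm_eq_abs] at h2
  refine h2.trans ?_
  have h3 : ‖(Submodule.Quotient.mk (toX (mkX y a.2)) : QQ)‖ ≤ ‖toX (mkX y a.2)‖ :=
    Submodule.Quotient.norm_mk_le YY _
  rw [LinearIsometry.norm_map] at h3
  rw [mul_assoc]
  exact mul_le_mul_of_nonneg_left (h3.trans hy) (norm_nonneg _)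

/-- Functionals on the quotient, restricted to the finitely supported families. -/
noncomputable def GG (g : QQ →L[ℝ] ℝ) : WW →ₗ[ℝ] ℝ where
  toFun w := g (Submodule.Quotient.mk (toX (mkX 0 w)))
  map_add' a b := by
    rw [← map_add, ← Submodule.Quotient.mk_add, ← map_add, mkX_add, add_zero]
  map_smul' r a := by
    rw [RingHom.id_apply, ← map_smul, ← Submodule.Quotient.mk_smul, ← map_smul, mkX_smul,
      smul_zero]

theorem GG_apply (g : QQ →L[ℝ] ℝ) (a : XA) : g (Submodule.Quotient.mk (toX a)) = GG g a.2 := by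
  change _ = g (Submodule.Quotient.mk (toX (mkX 0 a.2)))
  congr 1
  rw [Submodule.Quotient.eq]
  refine mem_YY.2 ⟨a.1, ?_⟩
  rw [J_apply, ← map_sub]
  congr 1
  have : a = mkX a.1 a.2 := (mkX_eta a).symm
  conv_rhs => rw [this]
  change mkX a.1 0 = mkX (a.1 - 0) (a.2 - a.2)
  rw [sub_self, sub_zero]

theorem abs_GG_le (g : QQ →L[ℝ] ℝ) (w : WW) : |GG g w| ≤ ‖g‖ * KK * p2 w := abs_G_le g (mkX 0 w)

end Pool.Agent.MP_2f2b65
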