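import Mathlib
import Pool.Agent.Lib.MP_2f2b65_an.Compl

set_option autoImplicit false

open Finset RealInnerProductSpace Filter Topology

namespace Pool.Agent.MP_2f2b65

theorem p2_mono {w v : WW} (h : ∀ t, ‖w t‖ ≤ ‖v t‖) : p2 w ≤ p2 v := by
  classical
  set F := nodes w ∪ nodes v with hF
  have h1 : nodes w ⊆ F := fun s hs => by simp [hF, hs]
  have h2 : nodes v ⊆ F := fun s hs => by simp [hF, hs]
  unfold p2
  refine Real.rpow_le_rpow (pw_nonneg w) ?_ (by norm_num)
  rw [pw_eq h1, pw_eq h2]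
  refine Finset.sum_le_sum fun s _ => Real.rpow_le_rpow (av_nonneg w s) ?_ (by norm_num)
  exact av_le fun i => (h (s, i)).trans (le_av v s i)

theorem p2_single_le (t : List ℕ × ℕ) (h : H) : p2 (Finsupp.single t h) ≤ ‖h‖ := by
  classical
  refine p2_le_of_node (s := t.1) (fun t' ht' => ?_) fun i => ?_
  · rw [Finsupp.single_apply, if_neg]
    rintro rfl
    exact ht' rfl
  · rw [Finsupp.single_apply]
    split_ifs
    · exact le_rfl
    · rw [norm_zero]
      exact norm_nonneg _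

theorem control_alg (g : QQ →L[ℝ] ℝ) (ε : ℝ) (hε : 0 < ε) :
    ∃ M : ℝ, ∀ a : XA, |g (Submodule.Quotient.mk (toX a))| ≤
      M * ‖RX (toX a)‖ + ε * ‖(Submodule.Quotient.mk (toX a) : QQ)‖ := by
  classical
  obtain ⟨F, hF⟩ := hump (GG g) (‖g‖ * KK) (abs_GG_le g) ε hε
  refine ⟨∑ t ∈ F, ‖g‖ * KK * (eps t)⁻¹, fun a => ?_⟩
  rw [GG_apply, RX_apply]
  set w := a.2 with hw
  have hsplit : (w.filter (· ∈ F)) + (w.filter (fun t => ¬ t ∈ F)) = w :=
    Finsupp.filter_add_filter_not w (· ∈ F)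
  have h1 : |GG g (w.filter (· ∈ F))| ≤ (∑ t ∈ F, ‖g‖ * KK * (eps t)⁻¹) * ‖RAl a‖ := by
    have h2 : w.filter (· ∈ F) = ∑ t ∈ F, Finsupp.single t (w t) := by
      ext1 t'
      rw [Finsupp.finsetSum_apply]
      simp only [Finsupp.single_apply]
      rw [Finset.sum_ite_eq']
      rw [Finsupp.filter_apply]
    rw [h2, map_sum]
    refine (Finset.abs_sum_le_sum_abs _ _).trans ?_
    rw [Finset.sum_mul]
    refine Finset.sum_le_sum fun t _ => ?_
    refine (abs_GG_le g _).trans ?_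
    rw [mul_assoc (‖g‖ * KK)]
    have hgn : 0 ≤ ‖g‖ * KK := mul_nonneg (norm_nonneg g) KK_pos.le
    refine mul_le_mul_of_nonneg_left ?_ hgn
    refine (p2_single_le _ _).trans ?_
    have h3 : ‖(RAl a) t‖ ≤ ‖RAl a‖ := lp.norm_apply_le_norm (by norm_num) _ t
    rw [RAl_apply, norm_smul, Real.norm_eq_abs, abs_of_pos (eps_pos t)] at h3
    rw [← hw] at h3
    have h4 := eps_pos t
    calc ‖w t‖ = (eps t)⁻¹ * (eps t * ‖w t‖) := by field_simp
      _ ≤ (eps t)⁻¹ * ‖RAl a‖ := mul_le_mul_of_nonneg_left h3 (inv_nonneg.2 h4.le)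
  have h5 : |GG g (w.filter (fun t => ¬ t ∈ F))| ≤
      ε * ‖(Submodule.Quotient.mk (toX a) : QQ)‖ := by
    refine (hF _ fun t ht => ?_).trans ?_
    · rw [Finsupp.filter_apply, if_neg (not_not.2 ht)]
    · refine mul_le_mul_of_nonneg_left ?_ hε.le
      refine (p2_mono fun t => ?_).trans (p2_le_norm_mk a)
      rw [Finsupp.filter_apply]
      by_cases ht : t ∈ F
      · rw [if_neg (not_not.2 ht), norm_zero]
        exact norm_nonneg _
      · rw [if_pos ht]
  calc |GG g w| = |GG g (w.filter (· ∈ F)) + GG g (w.filter (fun t => ¬ t ∈ F))| := by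
        rw [← map_add, hsplit]
    _ ≤ _ := (abs_add_le _ _).trans (add_le_add h1 h5)

theorem control (g : QQ →L[ℝ] ℝ) (ε : ℝ) (hε : 0 < ε) :
    ∃ M : ℝ, ∀ q : QQ, |g q| ≤ M * ‖RQ q‖ + ε * ‖q‖ := by
  obtain ⟨M, hM⟩ := control_alg g ε hε
  refine ⟨M, fun q => ?_⟩
  obtain ⟨x, rfl⟩ := Submodule.Quotient.mk_surjective YY q
  rw [RQ_mk]
  have hmk : Continuous fun x : XX => (Submodule.Quotient.mk x : QQ) :=
    AddMonoidHomClass.continuous_of_bound YY.mkQ 1
      (fun x => by rw [one_mul]; exact Submodule.Quotient.norm_mk_le YY x)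
  induction x using UniformSpace.Completion.induction_on with
  | hp =>
    refine isClosed_le ?_ ?_
    · exact (g.continuous.comp hmk).abs
    · exact (continuous_const.mul RX.continuous.norm).add (continuous_const.mul hmk.norm)
  | ih a => exact hM a

theorem wurable_QQ : WURable QQ :=
  wurable_of_hilbert_control QQ L2 RQ ‖RX‖ norm_RQ_le control

end Pool.Agent.MP_2f2b65
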