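import Mathlib
import Pool.Agent.Lib.MP_2f2b65_an.Quot

set_option autoImplicit false

open Finset RealInnerProductSpace Filter Topology

namespace Pool.Agent.MP_2f2b65

/-- (P3): vectors living at one node have norm at most two. -/
theorem norm_node_le {w : WW} {s : List ℕ} (h0 : ∀ t, t.1 ≠ s → w t = 0)
    (h1 : ∀ i, ‖w (s, i)‖ ≤ 1) : ‖mkX 0 w‖ ≤ 2 := by
  rw [norm_eq, mkX_snd]
  have h2 : p2 w ≤ 1 := p2_le_of_node h0 h1
  have h3 : n1 (mkX 0 w) ≤ 1 := by
    refine n1_le fun b ι hb _ => ?_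
    unfold psi
    rw [mkX_fst, mkX_snd, inner_zero_right, zero_add, psiW_of_node b ι h0]
    refine (abs_real_inner_le_norm _ _).trans ?_
    have h4 : ‖P (ι s :: s) b‖ ≤ 1 := (norm_P_le _ b).trans hb
    calc ‖P (ι s :: s) b‖ * ‖w (s, ι s)‖ ≤ 1 * 1 :=
          mul_le_mul h4 (h1 _) (norm_nonneg _) zero_le_one
      _ = 1 := one_mul 1
  linarith

/-- the vector `z` attached to the edge `(s, i)` and to the branch `x` -/
noncomputable def zz (s : List ℕ) (i : ℕ) (x : Bai) : WW := Finsupp.single (s, i) (ee x)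

theorem fX_zz {s : List ℕ} {i : ℕ} {x : Bai} (h : In (i :: s) x) :
    fX x (toX (mkX 0 (zz s i x))) = 1 := by
  classical
  rw [fX_apply]
  unfold psi
  rw [mkX_fst, mkX_snd, inner_zero_right, zero_add]
  have h0 : ∀ t : List ℕ × ℕ, t.1 ≠ s → zz s i x t = 0 := by
    intro t ht
    unfold zz
    rw [Finsupp.single_apply, if_neg]
    rintro rfl
    exact ht rfl
  rw [psiW_of_node _ _ h0]
  have h1 : br x s = i := (in_cons.1 h).1
  rw [h1]
  unfold zz
  rw [Finsupp.single_eq_same, P_ee_pos h, inner_ee_self]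

/-- One growth step. -/
theorem growth_step {N : XX → ℝ} (hadd : ∀ a b, N (a + b) ≤ N a + N b)
    (hsmul : ∀ (r : ℝ) a, N (r • a) = |r| * N a) (f : XX →L[ℝ] ℝ) (ε δ C : ℝ) (hε : 0 < ε)
    (hδ : δ < 2)
    (hf : ∀ u v, N u ≤ 1 → N v ≤ 1 → 2 - δ ≤ N (u + v) → |f (u - v)| ≤ ε)
    (hεC : 2 * C * ε < 2) (p z : XX) (hz : f z = 1) (hp : 0 < N p)
    (h1 : N (p + z) ≤ 2 * C) (h2 : N (p - z) ≤ 2 * C) :
    2 / (2 - δ) * N p ≤ N (p + z) ∨ 2 / (2 - δ) * N p ≤ N (p - z) := by
  by_contra hcon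
  push Not at hcon
  obtain ⟨h3, h4⟩ := hcon
  set M := max (N (p + z)) (N (p - z)) with hM
  have hM1 : N (p + z) ≤ M := le_max_left _ _
  have hM2 : N (p - z) ≤ M := le_max_right _ _
  have hM3 : M < 2 / (2 - δ) * N p := max_lt h3 h4
  have hM4 : M ≤ 2 * C := max_le h1 h2
  have h5 : (2 : ℝ) • p = (p + z) + (p - z) := by
    rw [two_smul]; abel
  have h6 : 2 * N p ≤ 2 * M := by
    have h7 := hadd (p + z) (p - z)
    rw [← h5, hsmul, abs_of_pos (by norm_num : (0 : ℝ) < 2)] at h7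
    linarith
  have hMpos : 0 < M := by linarith
  have hu : N (M⁻¹ • (p + z)) ≤ 1 := by
    rw [hsmul, abs_of_pos (inv_pos.2 hMpos), inv_mul_le_iff₀ hMpos, mul_one]
    exact hM1
  have hv : N (M⁻¹ • (p - z)) ≤ 1 := by
    rw [hsmul, abs_of_pos (inv_pos.2 hMpos), inv_mul_le_iff₀ hMpos, mul_one]
    exact hM2
  have huv : M⁻¹ • (p + z) + M⁻¹ • (p - z) = (M⁻¹ * 2) • p := by
    rw [← smul_add, ← h5, smul_smul]
  have huv' : M⁻¹ • (p + z) - M⁻¹ • (p - z) = (M⁻¹ * 2) • z := by
    rw [← smul_sub]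
    have : (p + z) - (p - z) = (2 : ℝ) • z := by rw [two_smul]; abel
    rw [this, smul_smul]
  have h8 : 2 - δ ≤ N (M⁻¹ • (p + z) + M⁻¹ • (p - z)) := by
    rw [huv, hsmul, abs_of_pos (by positivity)]
    have h9 : (2 - δ) * M < 2 * N p := by
      have h10 : 0 < 2 - δ := by linarith
      have h11 := mul_lt_mul_of_pos_left hM3 h10
      have h12 : (2 - δ) * (2 / (2 - δ) * N p) = 2 * N p := by
        field_simp
      linarith
    have h13 : M⁻¹ * 2 * N p = (2 * N p) / M := by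
      field_simp
    rw [h13, le_div_iff₀ hMpos]
    exact h9.le
  have h14 := hf _ _ hu hv h8
  rw [huv', map_smul, hz, smul_eq_mul, mul_one, abs_of_pos (by positivity)] at h14
  have h15 : 2 ≤ ε * M := by
    have h16 : M⁻¹ * 2 = 2 / M := by field_simp
    rw [h16, div_le_iff₀ hMpos] at h14
    exact h14
  have h17 : ε * M ≤ ε * (2 * C) := mul_le_mul_of_nonneg_left hM4 hε.le
  linarith

/-- The Baire category part. -/
theorem baire_node (S : ℕ → Set Bai) (hS : ∀ x, ∃ n, x ∈ S n) :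
    ∃ (n : ℕ) (s : List ℕ), ∀ i : ℕ, ∃ x ∈ S n, In (i :: s) x := by
  classical
  have hU : (⋃ n, closure (S n)) = Set.univ := by
    ext x
    simp only [Set.mem_iUnion, Set.mem_univ, iff_true]
    obtain ⟨n, hn⟩ := hS x
    exact ⟨n, subset_closure hn⟩
  obtain ⟨n, hn⟩ := nonempty_interior_of_iUnion_of_closed (fun n => isClosed_closure) hU
  obtain ⟨x0, hx0⟩ := hn
  obtain ⟨V, hV, hx0V, hVS⟩ := (PiNat.isTopologicalBasis_cylinders (fun _ : ℕ => ℕ)).exists_subset_of_mem_open
    hx0 isOpen_interior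
  obtain ⟨x1, m, rfl⟩ := hV
  refine ⟨n, PiNat.res x1 m, fun i => ?_⟩
  set x2 : Bai := Function.update x1 m i with hx2
  have h1 : x2 ∈ PiNat.cylinder x1 m := by
    intro k hk
    simp only [hx2]
    rw [Function.update_of_ne hk.ne]
  have h2 : PiNat.cylinder x2 (m + 1) ⊆ PiNat.cylinder x1 m := by
    refine (PiNat.cylinder_anti x2 (Nat.le_succ m)).trans ?_
    rw [PiNat.mem_cylinder_iff_eq.1 h1]
  have h3 : x2 ∈ closure (S n) := interior_subset (hVS h1)
  have h4 : IsOpen (PiNat.cylinder x2 (m + 1)) := PiNat.isOpen_cylinder _ _ _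
  obtain ⟨x, hx, hxS⟩ := mem_closure_iff.1 h3 _ h4 (PiNat.self_mem_cylinder _ _)
  refine ⟨x, hxS, ?_⟩
  rw [in_cons, PiNat.res_length]
  constructor
  · have := hx m (Nat.lt_succ_self m)
    rw [this]
    simp [hx2]
  · unfold In
    rw [PiNat.res_length, PiNat.res_eq_res]
    intro k hk
    exact (h2 hx) k hk

theorem not_wurable_XX : ¬ WURable XX := by
  classical
  rintro ⟨N, hadd, hsmul, ⟨c, C, hc, hC, hbd⟩, hW⟩
  have hN0 : ∀ a, 0 ≤ N a := fun a => le_trans (by positivity) (hbd a).1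
  set ε : ℝ := 1 / (2 * C) with hε
  have hεpos : 0 < ε := by positivity
  set S : ℕ → Set Bai := fun n => {x | ∀ u v, N u ≤ 1 → N v ≤ 1 → 2 - 1 / ((n : ℝ) + 1) ≤ N (u + v) →
    |fX x (u - v)| ≤ ε} with hS
  have hcov : ∀ x, ∃ n, x ∈ S n := by
    intro x
    by_contra hcon
    push Not at hcon
    have : ∀ n : ℕ, ∃ uv : XX × XX, N uv.1 ≤ 1 ∧ N uv.2 ≤ 1 ∧
        2 - 1 / ((n : ℝ) + 1) ≤ N (uv.1 + uv.2) ∧ ε < |fX x (uv.1 - uv.2)| := by
      intro n
      have h := hcon n
      simp only [hS, Set.mem_ofPred_eq] at h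
      push Not at h
      obtain ⟨u, v, h1, h2, h3, h4⟩ := h
      exact ⟨(u, v), h1, h2, h3, h4⟩
    choose uv h1 h2 h3 h4 using this
    have h5 : Tendsto (fun n => N ((uv n).1 + (uv n).2)) atTop (𝓝 2) := by
      have h6 : Tendsto (fun n : ℕ => (2 : ℝ) - 1 / ((n : ℝ) + 1)) atTop (𝓝 2) := by
        have := (tendsto_const_nhds (x := (2 : ℝ)) (f := atTop)).sub
          (tendsto_one_div_add_atTop_nhds_zero_nat (𝕜 := ℝ))
        simpa using this
      refine tendsto_of_tendsto_of_tendsto_of_le_of_le h6 tendsto_const_nhds h3 fun n => ?_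
      have := hadd (uv n).1 (uv n).2
      have := h1 n
      have := h2 n
      dsimp only
      linarith
    have h7 := hW (fun n => (uv n).1) (fun n => (uv n).2) h1 h2 h5 (fX x)
    rw [Metric.tendsto_atTop] at h7
    obtain ⟨n, hn⟩ := h7 ε hεpos
    have h8 := hn n le_rfl
    rw [Real.dist_eq, sub_zero] at h8
    exact absurd h8 (not_lt.2 (h4 n).le)
  obtain ⟨n, s, hs⟩ := baire_node S hcov
  choose x hxS hxI using hs
  set δ : ℝ := 1 / ((n : ℝ) + 1) with hδ
  have hδ0 : 0 < δ := by positivity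
  have hδ1 : δ ≤ 1 := by
    rw [hδ, div_le_one (by positivity)]
    linarith [(Nat.cast_nonneg n : (0 : ℝ) ≤ n)]
  set lam : ℝ := 2 / (2 - δ) with hlam
  have hlam1 : 1 < lam := by
    rw [hlam, lt_div_iff₀ (by linarith)]
    linarith
  -- growth
  have hnode : ∀ w : WW, (∀ t, t.1 ≠ s → w t = 0) → (∀ i, ‖w (s, i)‖ ≤ 1) →
      N (toX (mkX 0 w)) ≤ 2 * C := by
    intro w h0 h1
    refine (hbd _).2.trans ?_
    rw [LinearIsometry.norm_map]
    have := norm_node_le h0 h1
    nlinarith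
  have key : ∀ k : ℕ, ∃ w : WW, (∀ t, t.1 ≠ s → w t = 0) ∧ (∀ i, ‖w (s, i)‖ ≤ 1) ∧
      (∀ i, k < i → w (s, i) = 0) ∧ c * lam ^ k ≤ N (toX (mkX 0 w)) := by
    intro k
    induction k with
    | zero =>
      refine ⟨zz s 0 (x 0), ?_, ?_, ?_, ?_⟩
      · intro t ht
        unfold zz
        rw [Finsupp.single_apply, if_neg]
        rintro rfl
        exact ht rfl
      · intro i
        unfold zz
        rw [Finsupp.single_apply]
        split_ifs
        · exact (norm_ee _).le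
        · rw [norm_zero]; exact zero_le_one
      · intro i hi
        unfold zz
        rw [Finsupp.single_apply, if_neg]
        intro h
        have : 0 = i := congrArg Prod.snd h
        omega
      · rw [pow_zero, mul_one]
        refine le_trans ?_ (hbd _).1
        rw [LinearIsometry.norm_map]
        have h1 := fX_zz (hxI 0)
        rw [fX_apply] at h1
        have h2 := psi_le_norm (norm_ee (x 0)).le (main_br (x 0)) (mkX 0 (zz s 0 (x 0)))
        rw [h1, abs_one] at h2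
        nlinarith
    | succ k ih =>
      obtain ⟨w, hw0, hw1, hwk, hwN⟩ := ih
      set z := zz s (k + 1) (x (k + 1)) with hz
      have hz0 : ∀ t : List ℕ × ℕ, t ≠ (s, k + 1) → z t = 0 := by
        intro t ht
        rw [hz]
        unfold zz
        rw [Finsupp.single_apply, if_neg (fun h => ht h.symm)]
      have hz1 : ‖z (s, k + 1)‖ = 1 := by
        rw [hz]
        unfold zz
        rw [Finsupp.single_eq_same, norm_ee]
      have hwz : w (s, k + 1) = 0 := hwk (k + 1) (Nat.lt_succ_self k)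
      -- properties of `w + σ z`
      have hσ : ∀ σ : ℝ, |σ| = 1 → (∀ t, t.1 ≠ s → (w + σ • z) t = 0) ∧
          (∀ i, ‖(w + σ • z) (s, i)‖ ≤ 1) ∧ (∀ i, k + 1 < i → (w + σ • z) (s, i) = 0) := by
        intro σ hσ
        refine ⟨fun t ht => ?_, fun i => ?_, fun i hi => ?_⟩
        · rw [Finsupp.add_apply, Finsupp.smul_apply, hw0 t ht, hz0 t, smul_zero, add_zero]
          rintro rfl
          exact ht rfl
        · rw [Finsupp.add_apply, Finsupp.smul_apply]
          by_cases hi : i = k + 1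
          · subst hi
            rw [hwz, zero_add, norm_smul, hz1, Real.norm_eq_abs, hσ, one_mul]
          · rw [hz0 (s, i) (fun h => hi (congrArg Prod.snd h)), smul_zero, add_zero]
            exact hw1 i
        · rw [Finsupp.add_apply, Finsupp.smul_apply, hwk i (by omega),
            hz0 (s, i) (fun h => by have : i = k + 1 := congrArg Prod.snd h; omega), smul_zero, add_zero]
      have e1 : toX (mkX 0 w) + toX (mkX 0 z) = toX (mkX 0 (w + (1 : ℝ) • z)) := by
        rw [← map_add, mkX_add, add_zero, one_smul]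
      have e2 : toX (mkX 0 w) - toX (mkX 0 z) = toX (mkX 0 (w + (-1 : ℝ) • z)) := by
        rw [← map_sub]
        congr 1
        change mkX (0 - 0) (w - z) = _
        rw [sub_zero, neg_one_smul, sub_eq_add_neg]
      obtain ⟨a1, a2, a3⟩ := hσ 1 (by norm_num)
      obtain ⟨b1, b2, b3⟩ := hσ (-1) (by norm_num)
      have hNp : 0 < N (toX (mkX 0 w)) := lt_of_lt_of_le (by positivity) hwN
      have hstep := growth_step hadd hsmul (fX (x (k + 1))) ε δ C hεpos (by linarith)
        (hxS (k + 1)) (by rw [hε]; field_simp; norm_num) (toX (mkX 0 w)) (toX (mkX 0 z))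
        (fX_zz (hxI (k + 1))) hNp (by rw [e1]; exact hnode _ a1 a2) (by rw [e2]; exact hnode _ b1 b2)
      have hgr : c * lam ^ (k + 1) ≤ lam * N (toX (mkX 0 w)) := by
        rw [pow_succ]
        nlinarith
      rcases hstep with h | h
      · rw [e1] at h
        exact ⟨_, a1, a2, a3, hgr.trans h⟩
      · rw [e2] at h
        exact ⟨_, b1, b2, b3, hgr.trans h⟩
  obtain ⟨k, hk⟩ := pow_unbounded_of_one_lt (2 * C / c) hlam1
  obtain ⟨w, hw0, hw1, _, hw⟩ := key k
  have h1 := hnode w hw0 hw1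
  rw [div_lt_iff₀ hc] at hk
  nlinarith

end Pool.Agent.MP_2f2b65
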